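import Pool.Agent.Helper41.PS.Spec
import Pool.Agent.Helper75.PS.Vol

/-!
# Calculus of the Riemannian gradient on closed surfaces
-/

open MeasureTheory Set Manifold Bundle Filter Topology
open scoped ContDiff ENNReal

namespace Pool.Agent.Helper93.PS
open Pool.Agent.Helper41.PS

section Rules

set_option linter.unusedSectionVars false

variable {M : Type*} [TopologicalSpace M] [ChartedSpace E2 M] [IsManifold (𝓡 2) ∞ M]
  [RiemannianBundle (fun x : M => TangentSpace (𝓡 2) x)]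

/-- The differential as a linear functional. -/
noncomputable def dm (u : M → ℝ) (x : M) : TangentSpace (𝓡 2) x →L[ℝ] ℝ :=
  mfderiv (𝓡 2) 𝓘(ℝ, ℝ) u x

theorem grad_eq_symm (u : M → ℝ) (x : M) :
    Helper41.PS.grad u x = (InnerProductSpace.toDual ℝ (TangentSpace (𝓡 2) x)).symm (dm u x) := rfl

theorem inner_grad_left (u : M → ℝ) (x : M) (v : TangentSpace (𝓡 2) x) :
    inner ℝ (Helper41.PS.grad u x) v = dm u x v :=
  InnerProductSpace.toDual_symm_apply (𝕜 := ℝ) (E := TangentSpace (𝓡 2) x)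

theorem grad_of_has {u : M → ℝ} {x : M} {u' : TangentSpace (𝓡 2) x →L[ℝ] ℝ}
    (h : HasMFDerivAt (𝓡 2) 𝓘(ℝ, ℝ) u x u') :
    Helper41.PS.grad u x = (InnerProductSpace.toDual ℝ (TangentSpace (𝓡 2) x)).symm u' := by
  rw [grad_eq_symm]
  congr 1
  exact h.mfderiv

theorem has_of_diff {u : M → ℝ} {x : M} (hu : MDifferentiableAt (𝓡 2) 𝓘(ℝ, ℝ) u x) :
    HasMFDerivAt (𝓡 2) 𝓘(ℝ, ℝ) u x (dm u x) := hu.hasMFDerivAt

theorem grad_add {u v : M → ℝ} {x : M} (hu : MDifferentiableAt (𝓡 2) 𝓘(ℝ, ℝ) u x)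
    (hv : MDifferentiableAt (𝓡 2) 𝓘(ℝ, ℝ) v x) :
    Helper41.PS.grad (fun x => u x + v x) x = Helper41.PS.grad u x + Helper41.PS.grad v x := by
  have h : HasMFDerivAt (𝓡 2) 𝓘(ℝ, ℝ) (fun x => u x + v x) x (dm u x + dm v x) :=
    (has_of_diff hu).add (has_of_diff hv)
  rw [grad_of_has h, grad_eq_symm, grad_eq_symm, map_add]

theorem grad_sub {u v : M → ℝ} {x : M} (hu : MDifferentiableAt (𝓡 2) 𝓘(ℝ, ℝ) u x)
    (hv : MDifferentiableAt (𝓡 2) 𝓘(ℝ, ℝ) v x) :
    Helper41.PS.grad (fun x => u x - v x) x = Helper41.PS.grad u x - Helper41.PS.grad v x := by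
  have h : HasMFDerivAt (𝓡 2) 𝓘(ℝ, ℝ) (fun x => u x - v x) x (dm u x - dm v x) :=
    (has_of_diff hu).sub (has_of_diff hv)
  rw [grad_of_has h, grad_eq_symm, grad_eq_symm, map_sub]

theorem grad_const (c : ℝ) (x : M) : Helper41.PS.grad (fun _ : M => c) x = 0 := by
  have h : HasMFDerivAt (𝓡 2) 𝓘(ℝ, ℝ) (fun _ : M => c) x
    (0 : TangentSpace (𝓡 2) x →L[ℝ] ℝ) := hasMFDerivAt_const c x
  rw [grad_of_has h, map_zero]

theorem mdiff_add_const_iff (u : M → ℝ) (c : ℝ) (x : M) :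
    MDifferentiableAt (𝓡 2) 𝓘(ℝ, ℝ) (fun x => u x + c) x ↔
      MDifferentiableAt (𝓡 2) 𝓘(ℝ, ℝ) u x := by
  constructor
  · intro h
    have h2 := h.add (mdifferentiableAt_const (I := 𝓡 2) (I' := 𝓘(ℝ, ℝ)) (c := -c) (x := x))
    refine h2.congr_of_eventuallyEq (Eventually.of_forall fun z => ?_)
    simp
  · intro h
    exact h.add (mdifferentiableAt_const (I := 𝓡 2) (I' := 𝓘(ℝ, ℝ)) (c := c) (x := x))

theorem grad_add_const (u : M → ℝ) (c : ℝ) (x : M) :
    Helper41.PS.grad (fun x => u x + c) x = Helper41.PS.grad u x := by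
  by_cases hu : MDifferentiableAt (𝓡 2) 𝓘(ℝ, ℝ) u x
  · rw [grad_add hu mdifferentiableAt_const, grad_const, add_zero]
  · have hu' : ¬ MDifferentiableAt (𝓡 2) 𝓘(ℝ, ℝ) (fun x => u x + c) x :=
      fun h => hu ((mdiff_add_const_iff u c x).1 h)
    rw [grad_eq_symm, grad_eq_symm]
    congr 1
    change mfderiv (𝓡 2) 𝓘(ℝ, ℝ) (fun x => u x + c) x = mfderiv (𝓡 2) 𝓘(ℝ, ℝ) u x
    rw [mfderiv_zero_of_not_mdifferentiableAt hu, mfderiv_zero_of_not_mdifferentiableAt hu']
    rfl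

theorem grad_comp {u : M → ℝ} {T : ℝ → ℝ} {x : M} (hu : MDifferentiableAt (𝓡 2) 𝓘(ℝ, ℝ) u x)
    {T' : ℝ} (hT : HasDerivAt T T' (u x)) :
    Helper41.PS.grad (fun x => T (u x)) x = T' • Helper41.PS.grad u x := by
  have hT2 : HasMFDerivAt 𝓘(ℝ, ℝ) 𝓘(ℝ, ℝ) T (u x)
      (ContinuousLinearMap.toSpanSingleton ℝ T' : ℝ →L[ℝ] ℝ) := hT.hasFDerivAt.hasMFDerivAt
  have h := hT2.comp x (has_of_diff hu)
  have h2 : HasMFDerivAt (𝓡 2) 𝓘(ℝ, ℝ) (fun x => T (u x)) x (T' • dm u x) := by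
    refine h.congr_mfderiv ?_
    ext v
    change (dm u x v) • T' = T' * dm u x v
    rw [smul_eq_mul, mul_comm]
  rw [grad_of_has h2, grad_eq_symm, map_smul]

theorem grad_const_mul {u : M → ℝ} {x : M} (hu : MDifferentiableAt (𝓡 2) 𝓘(ℝ, ℝ) u x) (c : ℝ) :
    Helper41.PS.grad (fun x => c * u x) x = c • Helper41.PS.grad u x := by
  have h : HasDerivAt (fun t : ℝ => c * t) c (u x) := by
    simpa using (hasDerivAt_id (u x)).const_mul c
  exact grad_comp hu h

theorem grad_mul {u v : M → ℝ} {x : M} (hu : MDifferentiableAt (𝓡 2) 𝓘(ℝ, ℝ) u x)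
    (hv : MDifferentiableAt (𝓡 2) 𝓘(ℝ, ℝ) v x) :
    Helper41.PS.grad (fun x => u x * v x) x =
      u x • Helper41.PS.grad v x + v x • Helper41.PS.grad u x := by
  have h : HasMFDerivAt (𝓡 2) 𝓘(ℝ, ℝ) (fun x => u x * v x) x (u x • dm v x + v x • dm u x) :=
    (has_of_diff hu).mul (has_of_diff hv)
  rw [grad_of_has h, grad_eq_symm, grad_eq_symm, map_add, map_smul, map_smul]

end Rules

section Cont

set_option linter.unusedSectionVars false

variable {M : Type*} [TopologicalSpace M] [ChartedSpace E2 M] [IsManifold (𝓡 2) ∞ M]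
  [RiemannianBundle (fun x : M => TangentSpace (𝓡 2) x)]
  [IsContMDiffRiemannianBundle (𝓡 2) ∞ E2 (fun x : M => TangentSpace (𝓡 2) x)]

theorem inner_grad_psi (x0 : M) (L : E2 ≃L[ℝ] E2) {u v : M → ℝ}
    (hu : ContMDiff (𝓡 2) 𝓘(ℝ, ℝ) ∞ u) (hv : ContMDiff (𝓡 2) 𝓘(ℝ, ℝ) ∞ v) {y : E2}
    (hy : y ∈ (Helper75.PS.psi x0 L).source) :
    inner ℝ (Helper41.PS.grad u (Helper75.PS.psi x0 L y))
      (Helper41.PS.grad v (Helper75.PS.psi x0 L y)) =
    inner ℝ (Matrix.toEuclideanCLM (𝕜 := ℝ)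
      (Helper75.PS.gmat (Helper75.PS.T (Helper75.PS.psi x0 L) y))⁻¹
      (gradient (u ∘ Helper75.PS.psi x0 L) y)) (gradient (v ∘ Helper75.PS.psi x0 L) y) := by
  have h1 := Helper75.PS.contMDiffOn_psi x0 L
  have h2 := Helper75.PS.contMDiffOn_psi_symm x0 L
  rw [Helper75.PS.grad_comp _ h1 u hu hy, Helper75.PS.grad_comp _ h1 v hv hy,
    Helper75.PS.inner_inv _ (Helper75.PS.T_bijective _ h1 h2 hy)]

theorem cont_gradient {f : E2 → ℝ} {s : Set E2} (hs : IsOpen s) (hf : ContDiffOn ℝ ∞ f s) :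
    ContinuousOn (gradient f) s := by
  have h := hf.continuousOn_fderiv_of_isOpen hs (by simp)
  exact (InnerProductSpace.toDual ℝ E2).symm.continuous.comp_continuousOn h

theorem continuous_inner_grad {u v : M → ℝ} (hu : ContMDiff (𝓡 2) 𝓘(ℝ, ℝ) ∞ u)
    (hv : ContMDiff (𝓡 2) 𝓘(ℝ, ℝ) ∞ v) :
    Continuous (fun x => inner ℝ (Helper41.PS.grad u x) (Helper41.PS.grad v x)) := by
  rw [continuous_iff_continuousAt]
  intro x0
  obtain ⟨L, -⟩ := Helper75.PS.exists_L x0
  set ψ := Helper75.PS.psi x0 L with hψ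
  have h1 : ContMDiffOn (𝓡 2) (𝓡 2) ∞ ψ ψ.source := Helper75.PS.contMDiffOn_psi x0 L
  have h2 : ContMDiffOn (𝓡 2) (𝓡 2) ∞ ψ.symm ψ.target := Helper75.PS.contMDiffOn_psi_symm x0 L
  have hx0 : x0 ∈ ψ.target := by
    have := ψ.map_source (Helper75.PS.zero_mem_psi_source x0 L)
    rwa [hψ, Helper75.PS.psi_zero] at this
  have hcomp : ∀ w : M → ℝ, ContMDiff (𝓡 2) 𝓘(ℝ, ℝ) ∞ w →
      ContinuousOn (gradient (w ∘ ψ)) ψ.source := by
    intro w hw
    have h5 : ContMDiffOn (𝓡 2) 𝓘(ℝ, ℝ) ∞ (w ∘ ψ) ψ.source := hw.comp_contMDiffOn h1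
    exact cont_gradient ψ.open_source h5.contDiffOn
  have hclm : ContinuousOn (fun y => (Matrix.toEuclideanCLM (𝕜 := ℝ)
      (Helper75.PS.gmat (Helper75.PS.T ψ y))⁻¹ : E2 →L[ℝ] E2)) ψ.source :=
    Helper75.PS.clm_cont.comp_continuousOn (Helper75.PS.inv_cont ψ h1 h2)
  have hF : ContinuousOn (fun y => inner ℝ (Matrix.toEuclideanCLM (𝕜 := ℝ)
      (Helper75.PS.gmat (Helper75.PS.T ψ y))⁻¹
      (gradient (u ∘ ψ) y)) (gradient (v ∘ ψ) y)) ψ.source :=
    ContinuousOn.inner (𝕜 := ℝ) (hclm.clm_apply (hcomp u hu)) (hcomp v hv)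
  have hG : ContinuousOn (fun x => inner ℝ (Matrix.toEuclideanCLM (𝕜 := ℝ)
      (Helper75.PS.gmat (Helper75.PS.T ψ (ψ.symm x)))⁻¹
      (gradient (u ∘ ψ) (ψ.symm x))) (gradient (v ∘ ψ) (ψ.symm x))) ψ.target :=
    hF.comp ψ.continuousOn_symm (fun x hx => ψ.map_target hx)
  refine (hG.continuousAt (ψ.open_target.mem_nhds hx0)).congr ?_
  filter_upwards [ψ.open_target.mem_nhds hx0] with x hx
  have h3 : inner ℝ (Helper41.PS.grad u (ψ (ψ.symm x))) (Helper41.PS.grad v (ψ (ψ.symm x))) =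
      inner ℝ (Helper41.PS.grad u x) (Helper41.PS.grad v x) := by
    rw [ψ.right_inv hx]
  exact (inner_grad_psi x0 L hu hv (ψ.map_target hx)).symm.trans h3

theorem continuous_norm_grad {u : M → ℝ} (hu : ContMDiff (𝓡 2) 𝓘(ℝ, ℝ) ∞ u) :
    Continuous (fun x => ‖Helper41.PS.grad u x‖) := by
  have h := (continuous_inner_grad hu hu).sqrt
  refine h.congr (fun x => ?_)
  rw [real_inner_self_eq_norm_sq, Real.sqrt_sq (norm_nonneg _)]

end Cont

section Par

set_option linter.unusedSectionVars false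

variable {M : Type*} [TopologicalSpace M] [ChartedSpace E2 M] [IsManifold (𝓡 2) ∞ M]
  [RiemannianBundle (fun x : M => TangentSpace (𝓡 2) x)] [MeasurableSpace M]

/-- The volume measure on the image of a parametrised disc. -/
theorem restrict_eq_map [BorelSpace M] {vol : Measure M} {x0 : M} (p : Param vol x0) :
    vol.restrict (p.P '' Metric.ball 0 p.δ) =
      ((volume.restrict (Metric.ball 0 p.δ)).withDensity
        (fun y => ENNReal.ofReal (p.σ y))).map p.P := by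
  have hσm : AEMeasurable (fun y => ENNReal.ofReal (p.σ y))
      (volume.restrict (Metric.ball 0 p.δ)) :=
    (p.σ_smooth.continuousOn.aemeasurable measurableSet_ball).ennreal_ofReal
  have hPm : AEMeasurable p.P (volume.restrict (Metric.ball 0 p.δ)) :=
    p.cont_P.aemeasurable measurableSet_ball
  have hPν : AEMeasurable p.P ((volume.restrict (Metric.ball 0 p.δ)).withDensity
      (fun y => ENNReal.ofReal (p.σ y))) := hPm.mono_ac (withDensity_absolutelyContinuous _ _)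
  ext s hs
  have h := p.vol_eq (s.indicator 1) (measurable_one.indicator hs)
  rw [lintegral_indicator_one hs] at h
  rw [h, Measure.map_apply_of_aemeasurable hPν hs, withDensity_apply',
    Measure.restrict_restrict' measurableSet_ball]
  have hm : MeasurableSet (p.P ⁻¹' s ∩ Metric.ball 0 p.δ) :=
    Helper75.PS.meas_preimage p.cont_P measurableSet_ball hs
  rw [← lintegral_indicator hm, ← lintegral_indicator measurableSet_ball]
  refine lintegral_congr (fun y => ?_)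
  by_cases hy : y ∈ Metric.ball (0 : E2) p.δ
  · rw [indicator_of_mem hy]
    by_cases hys : p.P y ∈ s
    · rw [indicator_of_mem hys, indicator_of_mem (show y ∈ p.P ⁻¹' s ∩ Metric.ball 0 p.δ from
        ⟨hys, hy⟩)]
      simp
    · rw [indicator_of_notMem hys, indicator_of_notMem (fun h => hys h.1)]
      simp
  · rw [indicator_of_notMem hy, indicator_of_notMem (fun h => hy h.2)]

theorem restrict_open_eq_map [BorelSpace M] {vol : Measure M} {x0 : M} (p : Param vol x0)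
    {U : Set E2} (hU : IsOpen U) (hU' : U ⊆ Metric.ball 0 p.δ) :
    vol.restrict (p.P '' U) =
      ((volume.restrict U).withDensity (fun y => ENNReal.ofReal (p.σ y))).map p.P := by
  have hPm : AEMeasurable p.P (volume.restrict (Metric.ball 0 p.δ)) :=
    p.cont_P.aemeasurable measurableSet_ball
  have hPν : AEMeasurable p.P ((volume.restrict (Metric.ball 0 p.δ)).withDensity
      (fun y => ENNReal.ofReal (p.σ y))) := hPm.mono_ac (withDensity_absolutelyContinuous _ _)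
  have hPmU : AEMeasurable p.P (volume.restrict U) :=
    (p.cont_P.mono hU').aemeasurable hU.measurableSet
  have hPνU : AEMeasurable p.P ((volume.restrict U).withDensity
      (fun y => ENNReal.ofReal (p.σ y))) := hPmU.mono_ac (withDensity_absolutelyContinuous _ _)
  have hopen : IsOpen (p.P '' U) := p.open_P U hU' hU
  ext s hs
  have h1 : vol.restrict (p.P '' U) s = vol.restrict (p.P '' Metric.ball 0 p.δ)
      (s ∩ p.P '' U) := by
    rw [Measure.restrict_apply hs, Measure.restrict_apply (hs.inter hopen.measurableSet),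
      inter_assoc, inter_eq_left.2 (image_mono hU')]
  rw [h1, restrict_eq_map p, Measure.map_apply_of_aemeasurable hPν (hs.inter hopen.measurableSet),
    Measure.map_apply_of_aemeasurable hPνU hs, withDensity_apply', withDensity_apply',
    Measure.restrict_restrict' measurableSet_ball, Measure.restrict_restrict' hU.measurableSet]
  have hset : p.P ⁻¹' (s ∩ p.P '' U) ∩ Metric.ball 0 p.δ = p.P ⁻¹' s ∩ U := by
    ext y
    constructor
    · rintro ⟨⟨h2, z, hz, hzy⟩, hy⟩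
      refine ⟨h2, ?_⟩
      rwa [← p.inj_P (hU' hz) hy hzy]
    · rintro ⟨h2, hy⟩
      exact ⟨⟨h2, mem_image_of_mem _ hy⟩, hU' hy⟩
  rw [hset]

theorem integral_param' [BorelSpace M] {vol : Measure M} {x0 : M} (p : Param vol x0)
    {f : M → ℝ} {U : Set E2} (hU : IsOpen U) (hU' : U ⊆ Metric.ball 0 p.δ)
    (hf : AEStronglyMeasurable f (vol.restrict (p.P '' U))) :
    ∫ x in p.P '' U, f x ∂vol = ∫ y in U, f (p.P y) * p.σ y := by
  have hPmU : AEMeasurable p.P (volume.restrict U) :=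
    (p.cont_P.mono hU').aemeasurable hU.measurableSet
  have hPνU : AEMeasurable p.P ((volume.restrict U).withDensity
      (fun y => ENNReal.ofReal (p.σ y))) := hPmU.mono_ac (withDensity_absolutelyContinuous _ _)
  have hσm : AEMeasurable (fun y => (p.σ y).toNNReal) (volume.restrict U) :=
    ((p.σ_smooth.continuousOn.mono hU').aemeasurable hU.measurableSet).real_toNNReal
  rw [restrict_open_eq_map p hU hU'] at hf ⊢
  rw [integral_map hPνU hf]
  have hd : (fun y => ENNReal.ofReal (p.σ y)) = fun y => (((p.σ y).toNNReal : NNReal) : ℝ≥0∞) := rfl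
  rw [hd, integral_withDensity_eq_integral_smul₀ hσm]
  refine setIntegral_congr_fun hU.measurableSet (fun y hy => ?_)
  rw [NNReal.smul_def, Real.coe_toNNReal _ (p.σ_pos y (hU' hy)).le, smul_eq_mul, mul_comm]

theorem integral_param [BorelSpace M] {vol : Measure M} {x0 : M} (p : Param vol x0)
    {f : M → ℝ} (hf : Continuous f) {U : Set E2} (hU : IsOpen U) (hU' : U ⊆ Metric.ball 0 p.δ) :
    ∫ x in p.P '' U, f x ∂vol = ∫ y in U, f (p.P y) * p.σ y := by
  by_cases hm : AEStronglyMeasurable f (vol.restrict (p.P '' U))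
  · exact integral_param' p hU hU' hm
  · exact (hm hf.measurable.aestronglyMeasurable).elim

end Par

section Cmp

set_option linter.unusedSectionVars false

variable {M : Type*} [TopologicalSpace M] [T2Space M] [ChartedSpace E2 M] [IsManifold (𝓡 2) ∞ M]
  [RiemannianBundle (fun x : M => TangentSpace (𝓡 2) x)] [MeasurableSpace M]

/-- Parametrisations are differentiable. -/
theorem mdiff_P {vol : Measure M} {x0 : M} (p : Param vol x0) {y : E2}
    (hy : y ∈ Metric.ball (0 : E2) p.δ) : MDifferentiableAt (𝓡 2) (𝓡 2) p.P y := by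
  have hb : Metric.ball (0 : E2) p.δ ∈ 𝓝 y := Metric.isOpen_ball.mem_nhds hy
  have hPc : ContinuousAt p.P y := p.cont_P.continuousAt hb
  set c := p.P y with hc
  have f : SmoothBumpFunction (𝓡 2) c := Classical.arbitrary _
  have hF : ContMDiff (𝓡 2) 𝓘(ℝ, E2) ∞ (fun x => f x • chartAt E2 c x) := by
    apply f.contMDiff_smul
    exact contMDiffOn_chart (I := 𝓡 2) (n := ∞) (x := c)
  have hFi : ∀ i : Fin 2, ContDiffOn ℝ ∞ ((fun x => (f x • chartAt E2 c x) i) ∘ p.P)
      (Metric.ball 0 p.δ) := by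
    intro i
    apply p.smooth_comp
    have h1 : ContMDiff 𝓘(ℝ, E2) 𝓘(ℝ, ℝ) ∞ (fun z : E2 => z i) :=
      (EuclideanSpace.proj (𝕜 := ℝ) i).contDiff.contMDiff
    exact h1.comp hF
  have hFP : ContDiffOn ℝ ∞ (fun z => f (p.P z) • chartAt E2 c (p.P z)) (Metric.ball 0 p.δ) :=
    contDiffOn_euclidean.2 hFi
  have hd : DifferentiableAt ℝ (fun z => f (p.P z) • chartAt E2 c (p.P z)) y :=
    (hFP.contDiffAt hb).differentiableAt (by simp)
  have hsrc : ∀ᶠ z in 𝓝 y, p.P z ∈ (chartAt E2 c).source :=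
    hPc ((chartAt E2 c).open_source.mem_nhds (mem_chart_source E2 c))
  have hone : ∀ᶠ z in 𝓝 y, f (p.P z) = 1 := hPc f.eventuallyEq_one
  have hd2 : DifferentiableAt ℝ (fun z => chartAt E2 c (p.P z)) y := by
    refine hd.congr_of_eventuallyEq ?_
    filter_upwards [hone] with z hz
    rw [hz, one_smul]
  have hm : MDifferentiableAt (𝓡 2) (𝓡 2) (fun z => chartAt E2 c (p.P z)) y :=
    mdifferentiableAt_iff_differentiableAt.2 hd2
  have h3 : MDifferentiableAt (𝓡 2) (𝓡 2) (chartAt E2 c).symm (chartAt E2 c (p.P y)) :=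
    mdifferentiableAt_atlas_symm (chart_mem_atlas _ _)
      ((chartAt E2 c).map_source (mem_chart_source E2 c))
  have h4 := h3.comp y hm
  refine h4.congr_of_eventuallyEq ?_
  filter_upwards [hsrc] with z hz
  simp only [Function.comp]
  rw [(chartAt E2 c).left_inv hz]

/-- Every vector is the gradient in the parametrisation of a globally smooth function. -/
theorem exists_smooth_grad {vol : Measure M} {x0 : M} (p : Param vol x0) {y : E2}
    (hy : y ∈ Metric.ball (0 : E2) p.δ) (w : E2) :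
    ∃ V : M → ℝ, ContMDiff (𝓡 2) 𝓘(ℝ, ℝ) ∞ V ∧ gradient (V ∘ p.P) y = w := by
  obtain ⟨r, hr0, hr⟩ := Metric.isOpen_iff.1 Metric.isOpen_ball y hy
  let b : ContDiffBump y := ⟨r / 4, r / 2, by linarith, by linarith⟩
  have hts : tsupport b ⊆ Metric.ball 0 p.δ := by
    rw [b.tsupport_eq]
    exact (Metric.closedBall_subset_ball (half_lt_self hr0)).trans hr
  have hl : ContDiff ℝ ∞ (fun z : E2 => inner ℝ w z) := contDiff_const.inner ℝ contDiff_id
  obtain ⟨V, hV, hVP, -⟩ := p.extend (fun z => b z * inner ℝ w z) (b.contDiff.mul hl)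
    b.hasCompactSupport.mul_right ((tsupport_mul_subset_left).trans hts)
  refine ⟨V, hV, ?_⟩
  have hev : (V ∘ p.P) =ᶠ[𝓝 y] fun z => inner ℝ w z := by
    filter_upwards [Metric.isOpen_ball.mem_nhds hy, b.eventuallyEq_one] with z hz hz1
    simp only [Function.comp]
    rw [hVP z hz, hz1]
    simp
  rw [gradient, hev.fderiv_eq]
  have h5 : HasFDerivAt (fun z : E2 => inner ℝ w z) (InnerProductSpace.toDual ℝ E2 w) y :=
    (InnerProductSpace.toDual ℝ E2 w).hasFDerivAt
  rw [h5.fderiv, LinearIsometryEquiv.symm_apply_apply]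

/-- The Dirichlet form in the parametrisation is positive definite. -/
theorem a_pos {vol : Measure M} {x0 : M} (p : Param vol x0) {y : E2}
    (hy : y ∈ Metric.ball (0 : E2) p.δ) {w : E2} (hw : w ≠ 0) : 0 < inner ℝ (p.a y w) w := by
  obtain ⟨V, hV, hVw⟩ := exists_smooth_grad p hy w
  have h := p.grad_eq V V hV hV y hy
  rw [hVw] at h
  rw [← h]
  refine mul_pos ?_ (p.σ_pos y hy)
  rw [real_inner_self_eq_norm_sq]
  have hne : Helper41.PS.grad V (p.P y) ≠ 0 := by
    intro h0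
    apply hw
    have hdm : dm V (p.P y) = 0 := by
      ext v
      rw [← inner_grad_left, h0, inner_zero_left]
      rfl
    have h1 : MDifferentiableAt (𝓡 2) 𝓘(ℝ, ℝ) V (p.P y) := (hV _).mdifferentiableAt (by simp)
    have h3 : mfderiv (𝓡 2) 𝓘(ℝ, ℝ) (V ∘ p.P) y =
      (mfderiv (𝓡 2) 𝓘(ℝ, ℝ) V (p.P y)).comp (mfderiv (𝓡 2) (𝓡 2) p.P y) :=
      mfderiv_comp y h1 (mdiff_P p hy)
    have h4 : mfderiv (𝓡 2) 𝓘(ℝ, ℝ) V (p.P y) = 0 := hdm
    rw [h4, ContinuousLinearMap.zero_comp, mfderiv_eq_fderiv] at h3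
    rw [← hVw, gradient]
    change (InnerProductSpace.toDual ℝ E2).symm (fderiv ℝ (V ∘ p.P) y) = 0
    have h5 : fderiv ℝ (V ∘ p.P) y = 0 := h3
    rw [h5, map_zero]
  positivity

theorem exists_grad_comparison {vol : Measure M} {x0 : M} (p : Param vol x0) {r : ℝ}
    (hr : r < p.δ) : ∃ c C : ℝ, 0 < c ∧ 0 < C ∧
      (∀ y ∈ Metric.closedBall (0 : E2) r, c ≤ p.σ y ∧ p.σ y ≤ C) ∧
      ∀ u : M → ℝ, ContMDiff (𝓡 2) 𝓘(ℝ, ℝ) ∞ u → ∀ y ∈ Metric.closedBall (0 : E2) r,
        c * ‖gradient (u ∘ p.P) y‖ ^ 2 ≤ ‖Helper41.PS.grad u (p.P y)‖ ^ 2 ∧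
        ‖Helper41.PS.grad u (p.P y)‖ ^ 2 ≤ C * ‖gradient (u ∘ p.P) y‖ ^ 2 := by
  have hsub : Metric.closedBall (0 : E2) r ⊆ Metric.ball 0 p.δ := Metric.closedBall_subset_ball hr
  have hσ : ContinuousOn p.σ (Metric.closedBall 0 r) := p.σ_smooth.continuousOn.mono hsub
  have hK : IsCompact (Metric.closedBall (0 : E2) r ×ˢ Metric.sphere (0 : E2) 1) :=
    (isCompact_closedBall _ _).prod (isCompact_sphere _ _)
  set G : E2 × E2 → ℝ := fun z => inner ℝ (p.a z.1 z.2) z.2 / p.σ z.1 with hG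
  have hGc : ContinuousOn G (Metric.closedBall (0 : E2) r ×ˢ Metric.sphere (0 : E2) 1) := by
    have h1 : ContinuousOn (fun z : E2 × E2 => p.a z.1)
        (Metric.closedBall (0 : E2) r ×ˢ Metric.sphere (0 : E2) 1) :=
      p.a_cont.comp continuousOn_fst (fun z hz => hsub hz.1)
    have h2 : ContinuousOn (fun z : E2 × E2 => p.σ z.1)
        (Metric.closedBall (0 : E2) r ×ˢ Metric.sphere (0 : E2) 1) :=
      hσ.comp continuousOn_fst (fun z hz => hz.1)
    exact (ContinuousOn.inner (𝕜 := ℝ) (h1.clm_apply continuousOn_snd) continuousOn_snd).div h2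
      (fun z hz => (p.σ_pos _ (hsub hz.1)).ne')
  have hGpos : ∀ z ∈ Metric.closedBall (0 : E2) r ×ˢ Metric.sphere (0 : E2) 1, 0 < G z := by
    intro z hz
    have hne : z.2 ≠ 0 := by
      intro h0
      have := hz.2
      rw [h0] at this
      simp at this
    exact div_pos (a_pos p (hsub hz.1) hne) (p.σ_pos _ (hsub hz.1))
  obtain ⟨c1, hc1, hc1'⟩ := hK.exists_forall_le' hGc hGpos
  obtain ⟨C1, hC1⟩ := hK.exists_bound_of_continuousOn hGc
  obtain ⟨c2, hc2, hc2'⟩ := (isCompact_closedBall (0 : E2) r).exists_forall_le' hσ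
    (fun y hy => p.σ_pos y (hsub hy))
  obtain ⟨C2, hC2⟩ := (isCompact_closedBall (0 : E2) r).exists_bound_of_continuousOn hσ
  refine ⟨min c1 c2, max (max C1 C2) 1, lt_min hc1 hc2, lt_max_of_lt_right one_pos, ?_, ?_⟩
  · intro y hy
    exact ⟨(min_le_right _ _).trans (hc2' y hy), ((le_abs_self _).trans (hC2 y hy)).trans
      ((le_max_right _ _).trans (le_max_left _ _))⟩
  · intro u hu y hy
    set g := gradient (u ∘ p.P) y with hg
    have hσy := p.σ_pos y (hsub hy)
    have h1 : ‖Helper41.PS.grad u (p.P y)‖ ^ 2 = inner ℝ (p.a y g) g / p.σ y := by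
      rw [← real_inner_self_eq_norm_sq, eq_div_iff hσy.ne']
      exact p.grad_eq u u hu hu y (hsub hy)
    by_cases hg0 : g = 0
    · rw [h1, hg0]
      simp
    · have hgn : 0 < ‖g‖ := norm_pos_iff.2 hg0
      have hw : (y, (‖g‖⁻¹ : ℝ) • g) ∈ Metric.closedBall (0 : E2) r ×ˢ Metric.sphere (0 : E2) 1 := by
        refine ⟨hy, ?_⟩
        rw [mem_sphere_zero_iff_norm, norm_smul, norm_inv, norm_norm, inv_mul_cancel₀ hgn.ne']
      have h2 : inner ℝ (p.a y g) g / p.σ y = G (y, (‖g‖⁻¹ : ℝ) • g) * ‖g‖ ^ 2 := by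
        simp only [hG, map_smul, real_inner_smul_left, real_inner_smul_right]
        field_simp
      have h3 := hc1' _ hw
      have h4 := (le_abs_self _).trans (hC1 _ hw)
      rw [h1, h2]
      constructor
      · exact mul_le_mul_of_nonneg_right ((min_le_left _ _).trans h3) (sq_nonneg _)
      · exact mul_le_mul_of_nonneg_right
          (h4.trans ((le_max_left _ _).trans (le_max_left _ _))) (sq_nonneg _)

end Cmp

end Pool.Agent.Helper93.PS
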