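import Pool.Agent.Helper33.PS.ExpRellich
import Pool.Agent.Helper93.PS.R0

/-!
# Window energies from the mean field equation (request J-b of MP_577350_an)
-/

open MeasureTheory Set Manifold Bundle Filter Topology
open scoped ContDiff ENNReal

set_option linter.unusedSectionVars false

namespace Pool.Agent.Helper93.PS
open Pool.Agent.Helper41.PS

variable {M : Type*} [TopologicalSpace M] [T2Space M] [CompactSpace M] [ChartedSpace E2 M]
  [IsManifold (𝓡 2) ∞ M] [RiemannianBundle (fun x : M => TangentSpace (𝓡 2) x)]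
  [IsContMDiffRiemannianBundle (𝓡 2) ∞ E2 (fun x : M => TangentSpace (𝓡 2) x)]
  [MeasurableSpace M] [BorelSpace M] (vol : Measure M) [IsProbabilityMeasure vol]
  (hvol : IsRiemannianVolume vol)

include hvol in
theorem window_energy {h : M → ℝ} (hh : Continuous h) (hpos : ∀ x, 0 < h x) {lam : ℝ}
    (hlam : 0 < lam)
    {u : M → ℝ} (hu : ContMDiff (𝓡 2) 𝓘(ℝ, ℝ) ∞ u)
    (hnorm : ∫ x, h x * Real.exp (u x) ∂vol = 1)
    {ε : ℝ} (hε0 : 0 ≤ ε) (hε : ε ≤ 1 / 2)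
    (hweak : ∀ φ : M → ℝ, ContMDiff (𝓡 2) 𝓘(ℝ, ℝ) ∞ φ →
      |(∫ x, inner ℝ (Helper41.PS.grad u x) (Helper41.PS.grad φ x) ∂vol) + lam * (∫ x, φ x ∂vol)
         - lam * ∫ x, h x * Real.exp (u x) * φ x ∂vol|
        ≤ ε * √((∫ x, φ x ^ 2 ∂vol) + ∫ x, ‖Helper41.PS.grad φ x‖ ^ 2 ∂vol)) (k : ℝ) :
    ∫ x, (1 / (1 + (u x - k) ^ 2)) * ‖Helper41.PS.grad u x‖ ^ 2 ∂vol
      ≤ 2 * lam * Real.pi + 10 := by
  have hucont : Continuous u := hu.continuous
  have hgn : Continuous (fun x => ‖Helper41.PS.grad u x‖) := continuous_norm_grad hu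
  set φ : M → ℝ := fun x => TT 1 k (u x) with hφ
  have hφs : ContMDiff (𝓡 2) 𝓘(ℝ, ℝ) ∞ φ := (TT_contDiff 1 k).contMDiff.comp hu
  have hφc : Continuous φ := hφs.continuous
  have hφ0 : ∀ x, 0 ≤ φ x := fun x => TT_nonneg 1 k (u x)
  have hφ1 : ∀ x, φ x ≤ Real.pi := fun x => TT_le 1 k (u x)
  -- the gradient of the test function
  have hgrad : ∀ x, Helper41.PS.grad φ x =
      (1 / (1 + (u x - k) ^ 2)) • Helper41.PS.grad u x := by
    intro x
    have h1 : MDifferentiableAt (𝓡 2) 𝓘(ℝ, ℝ) u x := (hu x).mdifferentiableAt (by simp)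
    have h2 := grad_comp h1 (TT_hasDerivAt 1 k (u x))
    rw [hφ]
    convert h2 using 2
    simp
  have hw0 : ∀ x, 0 ≤ 1 / (1 + (u x - k) ^ 2) := fun x => by positivity
  have hw1 : ∀ x, 1 / (1 + (u x - k) ^ 2) ≤ 1 := by
    intro x
    rw [div_le_one (by positivity)]
    nlinarith [sq_nonneg (u x - k)]
  have hwc : Continuous (fun x => 1 / (1 + (u x - k) ^ 2)) := by
    refine Continuous.div continuous_const (by fun_prop) (fun x => by positivity)
  set X : ℝ := ∫ x, (1 / (1 + (u x - k) ^ 2)) * ‖Helper41.PS.grad u x‖ ^ 2 ∂vol with hX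
  have hXint : Integrable (fun x => (1 / (1 + (u x - k) ^ 2)) * ‖Helper41.PS.grad u x‖ ^ 2) vol :=
    Helper33.PS.intM (hwc.mul (hgn.pow 2))
  have hX0 : 0 ≤ X := integral_nonneg (fun x => mul_nonneg (hw0 x) (sq_nonneg _))
  have e1 : ∫ x, inner ℝ (Helper41.PS.grad u x) (Helper41.PS.grad φ x) ∂vol = X := by
    rw [hX]
    congr 1
    ext x
    rw [hgrad x, inner_smul_right, real_inner_self_eq_norm_sq]
  have e2 : ∫ x, ‖Helper41.PS.grad φ x‖ ^ 2 ∂vol ≤ X := by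
    rw [hX]
    refine integral_mono_of_nonneg (Eventually.of_forall fun x => sq_nonneg _) hXint
      (Eventually.of_forall fun x => ?_)
    change ‖Helper41.PS.grad φ x‖ ^ 2 ≤ (1 / (1 + (u x - k) ^ 2)) * ‖Helper41.PS.grad u x‖ ^ 2
    rw [hgrad x, norm_smul, Real.norm_of_nonneg (hw0 x), mul_pow]
    refine mul_le_mul_of_nonneg_right ?_ (sq_nonneg _)
    nlinarith [hw0 x, hw1 x]
  have e3 : ∫ x, φ x ^ 2 ∂vol ≤ Real.pi ^ 2 := by
    have : ∫ x, φ x ^ 2 ∂vol ≤ ∫ _x : M, Real.pi ^ 2 ∂vol := by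
      refine integral_mono (Helper33.PS.intM (hφc.pow 2)) (integrable_const _) (fun x => ?_)
      exact pow_le_pow_left₀ (hφ0 x) (hφ1 x) 2
    simpa using this
  have e4 : 0 ≤ ∫ x, φ x ∂vol := integral_nonneg hφ0
  have e5 : ∫ x, h x * Real.exp (u x) * φ x ∂vol ≤ Real.pi := by
    have h1 : ∫ x, h x * Real.exp (u x) * φ x ∂vol ≤ ∫ x, h x * Real.exp (u x) * Real.pi ∂vol := by
      refine integral_mono (Helper33.PS.intM (by fun_prop)) (Helper33.PS.intM (by fun_prop))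
        (fun x => ?_)
      exact mul_le_mul_of_nonneg_left (hφ1 x) (mul_nonneg (hpos x).le (Real.exp_pos _).le)
    rw [integral_mul_const, hnorm, one_mul] at h1
    exact h1
  have hm := hweak φ hφs
  rw [e1] at hm
  have h7 := (abs_le.1 hm).2
  have h8 : √((∫ x, φ x ^ 2 ∂vol) + ∫ x, ‖Helper41.PS.grad φ x‖ ^ 2 ∂vol)
      ≤ (1 + (Real.pi ^ 2 + X)) / 2 := by
    rw [Real.sqrt_le_left (by positivity)]
    have h9 : (∫ x, φ x ^ 2 ∂vol) + ∫ x, ‖Helper41.PS.grad φ x‖ ^ 2 ∂vol ≤ Real.pi ^ 2 + X :=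
      add_le_add e3 e2
    nlinarith [sq_nonneg (Real.pi ^ 2 + X - 1)]
  have h10 : ε * √((∫ x, φ x ^ 2 ∂vol) + ∫ x, ‖Helper41.PS.grad φ x‖ ^ 2 ∂vol)
      ≤ 1 / 2 * ((1 + (Real.pi ^ 2 + X)) / 2) :=
    mul_le_mul hε h8 (Real.sqrt_nonneg _) (by norm_num)
  have h11 : lam * ∫ x, h x * Real.exp (u x) * φ x ∂vol ≤ lam * Real.pi :=
    mul_le_mul_of_nonneg_left e5 hlam.le
  have h12 : 0 ≤ lam * ∫ x, φ x ∂vol := mul_nonneg hlam.le e4
  have hpi : Real.pi ^ 2 ≤ 10 := by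
    have := Real.pi_lt_d2
    nlinarith [Real.pi_pos]
  have hpl : 0 ≤ lam * Real.pi := by positivity
  nlinarith

end Pool.Agent.Helper93.PS
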